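import Pool.Agent.Lib.MP_b89b7d_lc.Example

set_option autoImplicit false

open MeasureTheory

namespace Pool.Agent.Results.MP_b89b7d_lc.Dichotomy

open Pool.Agent.Lib.MP_b89b7d_lc

/-- **Codes for `G_δ` Ramsey positive sets.** For every topological Ramsey space exactly one of the
following holds: (i) every nonempty `[s, A]` contains some `B` with `[s, B] = {B}`, and the set of
codes is `Σ¹₁`, hence not `Σ¹₂`-complete; (ii) some nonempty `[s, A]` contains no such `B`, and the
set of codes is `Σ¹₂`-complete, hence not `Σ¹₁`. Alternative (i) occurs, for the space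
`{0, 1, *}^ω`, so the answer to Q1 is yes. -/
theorem result :
    (∀ T : Triple, T.IsRamseySpace → ∀ e : ℕ × T.AR ≃ ℕ,
      ((∀ s A, (T.basic s A).Nonempty → ∃ B ∈ T.basic s A, T.basic s B = {B}) ∧
        AnalyticSet (T.codes e) ∧ ¬ IsSigma12Complete (T.codes e)) ∨
      ((∃ s A, (T.basic s A).Nonempty ∧ ∀ B ∈ T.basic s A, T.basic s B ≠ {B}) ∧
        ¬ AnalyticSet (T.codes e) ∧ IsSigma12Complete (T.codes e))) ∧
    (starSpace.IsRamseySpace ∧ Nonempty (ℕ × starSpace.AR ≃ ℕ) ∧
      ∀ e : ℕ × starSpace.AR ≃ ℕ, ¬ IsSigma12Complete (starSpace.codes e)) := by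
  refine ⟨?_, ⟨starFin, star_axioms⟩, ?_, ?_⟩
  · rintro T ⟨lefin, h⟩ e
    exact h.dichotomy e
  · haveI : Infinite starSpace.AR := (inferInstance : Infinite (List (Option Bool)))
    haveI : Countable starSpace.AR := (inferInstance : Countable (List (Option Bool)))
    exact nonempty_equiv_of_countable
  · intro e
    exact not_complete_of_analytic (star_axioms.analytic_of_atoms star_atoms e)

end Pool.Agent.Results.MP_b89b7d_lc.Dichotomy
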